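import Mathlib
import Pool.Agent.Lib.helper13.TangCore

set_option autoImplicit false

namespace Pool.Agent.Results.MP_24547c_co.Normal

open Pool.Agent.Lib.H13Tang
open scoped Matroid

/-- `k`-blocks over the finite field `F`. -/
def IsBlock {α : Type} [Finite α] (F : Type) [Field F] [Fintype F] (k : ℕ) (M : Matroid α) :
    Prop :=
  Simple M ∧ Representable F M ∧ ¬ CritLE M (Fintype.card F) k

/-- Tangential `k`-blocks over the finite field `F`. -/
def IsTangentialBlock {α : Type} [Finite α] (F : Type) [Field F] [Fintype F] (k : ℕ)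
    (M : Matroid α) : Prop :=
  IsBlock F k M ∧ ∀ N : Matroid α, N.IsStrictMinor M → ¬ IsBlock F k N

/-- Supersolvable matroids. -/
def Supersolvable {α : Type} (M : Matroid α) : Prop :=
  ∃ X : ℕ → Set α, (∀ i ≤ rk M M.E, IsModularFlat M (X i) ∧ rk M (X i) = i) ∧
    ∀ i < rk M M.E, X i ⊆ X (i + 1)

theorem result (α : Type) [Finite α] (F : Type) [Field F] [Fintype F] (k : ℕ) (M : Matroid α)
    (hM : IsTangentialBlock F k M) (hS : Supersolvable M) : Normal M (Fintype.card F) k := by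
  obtain ⟨⟨hs, ⟨d, φ, hφ⟩, hblock⟩, htan⟩ := hM
  obtain ⟨X, hX, -⟩ := hS
  have h : Rep F M φ := hφ
  have hblock' : ¬ ∃ L : (Fin d → F) →ₗ[F] (Fin k → F), ∀ e ∈ M.E, L (φ e) ≠ 0 :=
    fun hL => hblock ((h.critLE_iff k).2 hL)
  have hpos : 0 < rk M M.E := by
    by_contra h0
    refine hblock' ⟨0, fun e he => absurd ?_ h0⟩
    have h1 := rk_indep (hs.isNonloop he).indep
    have h2 := M.eRk_mono (Set.singleton_subset_iff.2 he)
    rw [← rk_coe, ← rk_coe, h1, Set.ncard_singleton] at h2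
    exact_mod_cast h2
  obtain ⟨hH, hr⟩ := hX (rk M M.E - 1) (by omega)
  refine core h hs hH (by omega) k hblock' fun a ha => ?_
  obtain ⟨π, hπ⟩ := exists_proj (F := F) (φ a)
  have hc := h.contract (hs.isNonloop ha) π hπ
  obtain ⟨R, hR, hRs, hRe⟩ := hc.exists_simple (fun e he h0 => by
    have : φ e ∈ LinearMap.ker π := h0
    rw [hπ, Submodule.mem_span_singleton] at this
    obtain ⟨c, hc⟩ := this
    exact he.2 (h.eq_of_smul hs he.1 ha one_ne_zero (by rw [one_smul, hc])))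
  have hrep : Rep F ((M ／ {a}) ↾ R) (π ∘ φ) := fun I hI => by
    rw [Matroid.restrict_ground_eq] at hI
    rw [Matroid.restrict_indep_iff, and_iff_left hI, hc I (hI.trans hR)]
  have hmin : ((M ／ {a}) ↾ R).IsStrictMinor M := by
    rw [Matroid.isStrictMinor_iff_isMinor_ssubset]
    refine ⟨⟨{a}, (M ／ {a}).E \ R, (Matroid.delete_compl hR).symm⟩,
      hR.trans Set.sdiff_subset, fun hh => (hR (hh ha)).2 rfl⟩
  have hcrit : CritLE ((M ／ {a}) ↾ R) (Fintype.card F) k := by
    by_contra hn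
    exact htan _ hmin ⟨hRs, ⟨d, π ∘ φ, hrep⟩, hn⟩
  obtain ⟨L, hL⟩ := (hrep.critLE_iff k).1 hcrit
  refine ⟨L ∘ₗ π, ?_, fun e he hea => ?_⟩
  · have : φ a ∈ LinearMap.ker π := hπ ▸ Submodule.mem_span_singleton_self _
    rw [LinearMap.comp_apply, LinearMap.mem_ker.1 this, map_zero]
  · obtain ⟨x, hx, c, hc, hc0⟩ := hRe e ⟨he, hea⟩
    have h1 : π (φ e) = c • π (φ x) := hc
    rw [LinearMap.comp_apply, h1, map_smul]
    exact smul_ne_zero hc0 (hL x hx)

end Pool.Agent.Results.MP_24547c_co.Normal
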